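import Pool.Agent.NDR.StmtsR

/-!
The faces of the flat face polynomial are smooth in the torus.
-/

set_option autoImplicit false

namespace Pool.Agent.NDR.H24

open Finset Pool.Agent.Helper30_Simp MvPolynomial

variable {σ : Type} [Fintype σ]

/-- exponent as an integer vector -/
def zc (α : σ →₀ ℕ) : σ → ℤ := fun i => ((α i : ℕ) : ℤ)

theorem zc_inj : Function.Injective (zc : (σ →₀ ℕ) → σ → ℤ) := by
  intro α β h
  ext i
  have h1 := congrFun h i
  simp only [zc] at h1
  exact_mod_cast h1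

theorem zc_add (α β : σ →₀ ℕ) : zc (α + β) = zc α + zc β := by
  funext i
  simp [zc]

theorem coeff_prt (F : MvPolynomial σ ℂ) (S : Finset (σ →₀ ℕ)) (α : σ →₀ ℕ) :
    coeff α (prt F S) = (open Classical in if α ∈ S then coeff α F else 0) := by
  classical
  unfold prt
  rw [coeff_sum]
  simp only [coeff_monomial]
  rw [Finset.sum_ite_eq' S α]

theorem support_prt (F : MvPolynomial σ ℂ) (S : Finset (σ →₀ ℕ)) (hS : S ⊆ F.support) :
    (prt F S).support = S := by
  classical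
  ext α
  rw [MvPolynomial.mem_support_iff, coeff_prt]
  by_cases h : α ∈ S
  · simp only [h, if_true]
    exact iff_of_true (MvPolynomial.mem_support_iff.1 (hS h)) trivial
  · simp [h]

theorem toL_prt (F : MvPolynomial σ ℂ) (S : Finset (σ →₀ ℕ)) (hS : S ⊆ F.support) :
    toL (prt F S) = ∑ α ∈ S, Finsupp.single (zc α) (coeff α F) := by
  classical
  unfold toL
  rw [support_prt F S hS]
  refine Finset.sum_congr rfl fun α hα => ?_
  rw [coeff_prt, if_pos hα]
  rfl

theorem toL_zc (F : MvPolynomial σ ℂ) (S : Finset (σ →₀ ℕ)) (hS : S ⊆ F.support) {α : σ →₀ ℕ}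
    (hα : α ∈ S) : toL (prt F S) (zc α) = coeff α F := by
  classical
  rw [toL_prt F S hS, Finsupp.finsetSum_apply]
  rw [Finset.sum_eq_single α]
  · rw [Finsupp.single_eq_same]
  · intro β _ hβ
    rw [Finsupp.single_apply, if_neg fun h => hβ (zc_inj h)]
  · intro h
    exact absurd hα h

theorem mem_support_toL (F : MvPolynomial σ ℂ) (S : Finset (σ →₀ ℕ)) (hS : S ⊆ F.support)
    {a : σ → ℤ} : a ∈ (toL (prt F S)).support ↔ ∃ α ∈ S, zc α = a := by
  classical
  constructor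
  · intro h
    by_contra hc
    push Not at hc
    rw [Finsupp.mem_support_iff] at h
    apply h
    rw [toL_prt F S hS, Finsupp.finsetSum_apply]
    refine Finset.sum_eq_zero fun β hβ => ?_
    rw [Finsupp.single_apply, if_neg (hc β hβ)]
  · rintro ⟨α, hα, rfl⟩
    rw [Finsupp.mem_support_iff, toL_zc F S hS hα]
    exact MvPolynomial.mem_support_iff.1 (hS hα)

theorem fac_toL (F : MvPolynomial σ ℂ) (S : Finset (σ →₀ ℕ)) (hS : S ⊆ F.support) (u : σ → ℤ)
    (T : Finset (σ →₀ ℕ)) (hT : ∀ α, α ∈ T ↔ α ∈ S ∧ pr u (zc α) = 0) :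
    fac (toL (prt F S)) u = toL (prt F T) := by
  classical
  have hTS : T ⊆ S := fun α h => ((hT α).1 h).1
  have hTF : T ⊆ F.support := hTS.trans hS
  unfold fac
  ext a
  by_cases h0 : pr u a = 0
  · rw [Finsupp.filter_apply_pos (fun a => pr u a = 0) _ h0]
    by_cases h1 : ∃ α ∈ S, zc α = a
    · obtain ⟨α, hα, rfl⟩ := h1
      rw [toL_zc F S hS hα, toL_zc F T hTF ((hT α).2 ⟨hα, h0⟩)]
    · have h2 : a ∉ (toL (prt F S)).support := fun h => h1 ((mem_support_toL F S hS).1 h)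
      have h3 : a ∉ (toL (prt F T)).support := fun h => by
        obtain ⟨α, hα, h4⟩ := (mem_support_toL F T hTF).1 h
        exact h1 ⟨α, hTS hα, h4⟩
      rw [Finsupp.notMem_support_iff.1 h2, Finsupp.notMem_support_iff.1 h3]
  · rw [Finsupp.filter_apply_neg (fun a => pr u a = 0) _ h0]
    have h3 : a ∉ (toL (prt F T)).support := fun h => by
      obtain ⟨α, hα, rfl⟩ := (mem_support_toL F T hTF).1 h
      exact h0 ((hT α).1 hα).2
    rw [Finsupp.notMem_support_iff.1 h3]

/-- polynomials as Laurent polynomials, shifted by `s` -/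
noncomputable def Lam (s : σ → ℤ) : MvPolynomial σ ℂ →ₗ[ℂ] ((σ → ℤ) →₀ ℂ) :=
  (basisMonomials σ ℂ).constr ℂ fun α => Finsupp.single (zc α + s) 1

theorem Lam_monomial (s : σ → ℤ) (α : σ →₀ ℕ) (c : ℂ) :
    Lam s (monomial α c) = Finsupp.single (zc α + s) c := by
  have h1 : monomial α c = c • (basisMonomials σ ℂ) α := by
    rw [coe_basisMonomials, smul_monomial, smul_eq_mul, mul_one]
  rw [h1, map_smul]
  unfold Lam
  rw [Module.Basis.constr_basis, Finsupp.smul_single, smul_eq_mul, mul_one]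

theorem thm_Lam (F : MvPolynomial σ ℂ) (S : Finset (σ →₀ ℕ)) (hS : S ⊆ F.support) (j : σ)
    (s : σ → ℤ) (p : MvPolynomial σ ℂ) :
    thm (toL (prt F S)) j (Lam s p) = Lam s (X j * pderiv j (prt F S) * p) := by
  classical
  induction p using MvPolynomial.induction_on' with
  | monomial β d =>
    have e1 : X j * pderiv j (prt F S) * monomial β d
        = ∑ α ∈ S, monomial (α + β) (((α j : ℕ) : ℂ) * coeff α F * d) := by
      unfold prt
      rw [map_sum, Finset.mul_sum, Finset.sum_mul]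
      refine Finset.sum_congr rfl fun α _ => ?_
      rw [X_mul_pderiv_monomial, nsmul_eq_mul, ← map_natCast (C : ℂ →+* MvPolynomial σ ℂ),
        C_mul_monomial, monomial_mul]
    rw [e1, map_sum, Lam_monomial]
    simp only [Lam_monomial]
    unfold thm
    rw [toL_prt F S hS, ← Finsupp.sum_finsetSum_index]
    · refine Finset.sum_congr rfl fun α _ => ?_
      rw [Finsupp.sum_single_index, Finsupp.sum_single_index]
      · rw [zc_add]
        have e2 : zc β + s + zc α = zc α + zc β + s := by abel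
        rw [e2]
        congr 1
      · simp
      · simp
    · intro a
      simp
    · intro a b₁ b₂
      rw [Finsupp.sum_single_index (by simp), Finsupp.sum_single_index (by simp),
        Finsupp.sum_single_index (by simp), ← Finsupp.single_add]
      congr 1
      ring
  | add p q hp hq =>
    rw [map_add, mul_add, map_add, ← hp, ← hq, thm_eq, thm_eq, thm_eq, opA_add]

theorem euler (F : MvPolynomial σ ℂ) (S : Finset (σ →₀ ℕ)) (κ : σ → ℕ) (N : ℕ)
    (h : ∀ α ∈ S, dot κ α = N) :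
    ∑ j, C ((κ j : ℕ) : ℂ) * (X j * pderiv j (prt F S)) = C ((N : ℕ) : ℂ) * prt F S := by
  classical
  unfold prt
  simp only [map_sum, Finset.mul_sum]
  rw [Finset.sum_comm]
  refine Finset.sum_congr rfl fun α hα => ?_
  have e : ∀ j, C ((κ j : ℕ) : ℂ) * (X j * pderiv j (monomial α (coeff α F)))
      = C (((κ j * α j : ℕ)) : ℂ) * monomial α (coeff α F) := by
    intro j
    rw [X_mul_pderiv_monomial, nsmul_eq_mul, ← map_natCast (C : ℂ →+* MvPolynomial σ ℂ),
      ← mul_assoc, ← map_mul]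
    push_cast
    rfl
  rw [Finset.sum_congr rfl fun j _ => e j, ← Finset.sum_mul, ← map_sum]
  congr 2
  rw [← h α hα]
  unfold dot
  push_cast
  rfl

theorem prod_pow_eq (n : ℕ) :
    (∏ i : σ, (X i : MvPolynomial σ ℂ)) ^ n
      = monomial (Finsupp.equivFunOnFinite.symm fun _ => n) 1 := by
  classical
  rw [← Finset.prod_pow]
  have h := MvPolynomial.monomial_eq (R := ℂ) (s := Finsupp.equivFunOnFinite.symm
    fun _ : σ => n) (a := 1)
  rw [h, C_1, one_mul, Finsupp.prod_fintype]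
  · rfl
  · intro i
    exact pow_zero _

theorem unit_of_smooth (F : MvPolynomial σ ℂ) (S : Finset (σ →₀ ℕ)) (hS : S ⊆ F.support)
    (κ : σ → ℕ) (N : ℕ) (hN : 0 < N) (h : ∀ α ∈ S, dot κ α = N) (ht : TorusSmooth (prt F S)) :
    Unit (toL (prt F S)) := by
  classical
  obtain ⟨n, hn⟩ := ht
  rw [Ideal.span_union] at hn
  obtain ⟨y, hy, z, hz, hyz⟩ := Submodule.mem_sup.1 hn
  obtain ⟨a, ha⟩ := Ideal.mem_span_singleton'.1 hy
  obtain ⟨b, hb⟩ := (Ideal.mem_span_range_iff_exists_fun).1 hz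
  set G := prt F S with hG
  have hN' : ((N : ℕ) : ℂ) ≠ 0 := Nat.cast_ne_zero.2 hN.ne'
  have heu := euler F S κ N h
  rw [← hG] at heu
  have hGe : G = ∑ j, C (((N : ℕ) : ℂ)⁻¹ * ((κ j : ℕ) : ℂ)) * (X j * pderiv j G) := by
    have h1 : G = C (((N : ℕ) : ℂ)⁻¹) * (C ((N : ℕ) : ℂ) * G) := by
      rw [← mul_assoc, ← map_mul, inv_mul_cancel₀ hN', C_1, one_mul]
    rw [← heu, Finset.mul_sum] at h1
    simp only [map_mul, mul_assoc]
    exact h1
  set P : MvPolynomial σ ℂ := ∏ i : σ, X i with hP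
  let c : σ → MvPolynomial σ ℂ := fun j =>
    P * a * C (((N : ℕ) : ℂ)⁻¹ * ((κ j : ℕ) : ℂ)) + b j * ∏ i ∈ univ.erase j, X i
  have hc : P ^ (n + 1) = ∑ j, X j * pderiv j G * c j := by
    have h1 : ∀ j, X j * pderiv j G * c j
        = P * a * (C (((N : ℕ) : ℂ)⁻¹ * ((κ j : ℕ) : ℂ)) * (X j * pderiv j G))
          + P * (b j * pderiv j G) := by
      intro j
      have h2 : P = X j * ∏ i ∈ univ.erase j, X i := (Finset.mul_prod_erase _ _ (mem_univ j)).symm
      simp only [c]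
      rw [mul_add]
      congr 1
      · ring
      · rw [h2]
        ring
    rw [Finset.sum_congr rfl fun j _ => h1 j, Finset.sum_add_distrib, ← Finset.mul_sum, ← hGe,
      ← Finset.mul_sum, hb, mul_assoc, ha, ← mul_add, hyz, pow_succ']
  let s : σ → ℤ := fun _ => -((n + 1 : ℕ) : ℤ)
  refine ⟨fun j => Lam s (c j), ?_⟩
  rw [Finset.sum_congr rfl fun j _ => thm_Lam F S hS j s (c j), ← map_sum, ← hG, ← hc, hP,
    prod_pow_eq, Lam_monomial]
  congr 1
  funext i
  simp [zc, s]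

theorem ndp_ : NdpStmt := by
  classical
  intro σ _ F κ N hF hN hκ u hu0 hupos huex
  set M := F.support with hM
  have hA'M : lev M κ N ⊆ F.support := Finset.filter_subset _ _
  have hA' : ∀ α, α ∈ lev M κ N ↔ α ∈ M ∧ dot κ α = N := fun α => Finset.mem_filter
  set S : Finset (σ →₀ ℕ) := (lev M κ N).filter fun α => pr u (zc α) = 0 with hSdef
  have hS : ∀ α, α ∈ S ↔ α ∈ lev M κ N ∧ pr u (zc α) = 0 := fun α => Finset.mem_filter
  have hSF : S ⊆ F.support := (Finset.filter_subset _ _).trans hA'M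
  rw [fac_toL F (lev M κ N) hA'M u S hS]
  refine unit_of_smooth F S hSF κ N hN (fun α hα => ((hA' α).1 ((hS α).1 hα).1).2) ?_
  -- the weight
  have hup : ∀ α ∈ lev M κ N, 0 ≤ pr u (zc α) := fun α hα =>
    hupos _ ((mem_support_toL F _ hA'M).2 ⟨α, hα, rfl⟩)
  obtain ⟨α₀, hα₀, hα₀'⟩ : ∃ α ∈ lev M κ N, pr u (zc α) = 0 := by
    obtain ⟨a, ha, h0⟩ := huex
    obtain ⟨α, hα, rfl⟩ := (mem_support_toL F _ hA'M).1 ha
    exact ⟨α, hα, h0⟩
  let B : ℤ := ∑ i, |u i|
  let D : ℤ := ∑ α ∈ M, ∑ i, ((α i : ℕ) : ℤ)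
  have hB0 : 0 ≤ B := Finset.sum_nonneg fun i _ => abs_nonneg _
  have hBi : ∀ i, |u i| ≤ B := fun i =>
    Finset.single_le_sum (f := fun i => |u i|) (fun j _ => abs_nonneg _) (mem_univ i)
  have hD : ∀ α ∈ M, ∑ i, ((α i : ℕ) : ℤ) ≤ D := fun α hα =>
    Finset.single_le_sum (f := fun α : σ →₀ ℕ => ∑ i, ((α i : ℕ) : ℤ))
      (fun β _ => Finset.sum_nonneg fun i _ => Int.natCast_nonneg _) hα
  have hD0 : 0 ≤ D := Finset.sum_nonneg fun β _ =>
    Finset.sum_nonneg fun i _ => Int.natCast_nonneg _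
  have hbd : ∀ α ∈ M, -(B * D) ≤ pr u (zc α) := by
    intro α hα
    have h1 : ∀ i, -(B * ((α i : ℕ) : ℤ)) ≤ u i * ((α i : ℕ) : ℤ) := by
      intro i
      have h2 : -B ≤ u i := (neg_le_neg (hBi i)).trans (neg_abs_le _)
      have h3 : (0 : ℤ) ≤ ((α i : ℕ) : ℤ) := Int.natCast_nonneg _
      nlinarith
    have h4 : -(B * ∑ i, ((α i : ℕ) : ℤ)) ≤ pr u (zc α) := by
      unfold pr zc
      rw [Finset.mul_sum, ← Finset.sum_neg_distrib]
      exact Finset.sum_le_sum fun i _ => by simpa using h1 i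
    have h5 := mul_le_mul_of_nonneg_left (hD α hα) hB0
    linarith
  let Q : ℤ := B * D + B + 1
  have hw : ∀ i, 0 ≤ Q * κ i + u i := by
    intro i
    by_cases hi : i ∈ sup κ
    · have h1 : κ i ≠ 0 := (Finset.mem_filter.1 hi).2
      have h2 : (1 : ℤ) ≤ κ i := by exact_mod_cast Nat.one_le_iff_ne_zero.2 h1
      have h3 : -B ≤ u i := (neg_le_neg (hBi i)).trans (neg_abs_le _)
      have h4 : 0 ≤ B * D := mul_nonneg hB0 hD0
      have h5 : 0 ≤ Q := by simp only [Q]; linarith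
      have h6 : Q * 1 ≤ Q * κ i := mul_le_mul_of_nonneg_left h2 h5
      simp only [Q] at h6 ⊢
      linarith
    · have h1 : κ i = 0 := by
        by_contra hc
        exact hi (Finset.mem_filter.2 ⟨mem_univ i, hc⟩)
      rw [hu0 i hi, h1]
      simp
  let w : σ → ℕ := fun i => (Q * κ i + u i).toNat
  have hwi : ∀ i, ((w i : ℕ) : ℤ) = Q * κ i + u i := fun i => Int.toNat_of_nonneg (hw i)
  have hdot : ∀ α : σ →₀ ℕ, ((dot w α : ℕ) : ℤ) = Q * ((dot κ α : ℕ) : ℤ) + pr u (zc α) := by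
    intro α
    unfold dot pr zc
    push_cast
    rw [Finset.mul_sum, ← Finset.sum_add_distrib]
    refine Finset.sum_congr rfl fun i _ => ?_
    rw [hwi]
    ring
  have hQ : 0 ≤ Q := by
    have h4 : 0 ≤ B * D := mul_nonneg hB0 hD0
    simp only [Q]
    linarith
  have h0 : ((dot w α₀ : ℕ) : ℤ) = Q * N := by
    rw [hdot, hα₀', ((hA' α₀).1 hα₀).2, add_zero]
  have hlow : ∀ α ∈ M, α ∉ S → Q * N < ((dot w α : ℕ) : ℤ) := by
    intro α hα hαS
    rw [hdot]
    by_cases h1 : dot κ α = N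
    · have h2 : α ∈ lev M κ N := (hA' α).2 ⟨hα, h1⟩
      have h3 : pr u (zc α) ≠ 0 := fun h => hαS ((hS α).2 ⟨h2, h⟩)
      have h4 := lt_of_le_of_ne (hup α h2) h3.symm
      rw [h1]
      linarith
    · have h2 : N + 1 ≤ dot κ α := lt_of_le_of_ne (hκ α hα) (Ne.symm h1)
      have h3 : ((N : ℤ) + 1) ≤ ((dot κ α : ℕ) : ℤ) := by exact_mod_cast h2
      have h4 := mul_le_mul_of_nonneg_left h3 hQ
      have h5 := hbd α hα
      simp only [Q] at h4 ⊢
      nlinarith
  have hfc : fcn M w = S := by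
    ext α
    unfold fcn
    rw [Finset.mem_filter]
    constructor
    · rintro ⟨h1, h2⟩
      by_contra hc
      have h3 := hlow α h1 hc
      have h4 : ((dot w α : ℕ) : ℤ) ≤ ((dot w α₀ : ℕ) : ℤ) := by
        exact_mod_cast h2 α₀ ((hA' α₀).1 hα₀).1
      rw [h0] at h4
      linarith
    · intro h1
      have h2 := (hA' α).1 ((hS α).1 h1).1
      refine ⟨h2.1, fun β hβ => ?_⟩
      have h3 : ((dot w α : ℕ) : ℤ) = Q * N := by
        rw [hdot, ((hS α).1 h1).2, h2.2, add_zero]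
      have h4 : Q * N ≤ ((dot w β : ℕ) : ℤ) := by
        by_cases hc : β ∈ S
        · have h5 := (hA' β).1 ((hS β).1 hc).1
          rw [hdot, ((hS β).1 hc).2, h5.2, add_zero]
        · exact (hlow β hβ hc).le
      rw [← h3] at h4
      exact_mod_cast h4
  have := hF w
  rwa [hfc] at this

end Pool.Agent.NDR.H24
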